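import Pool.Agent.H6.FN.Targets2

/-!
# MP_7500ea_al, board fcn_modules, row NUB (numerical)
-/

namespace Pool.Agent.H59.FN

open FI Real

lemma exp_five : (148 : ℝ) ≤ exp 5 := by
  have h1 : (2.7182818283 : ℝ) < exp 1 := exp_one_gt_d9
  have h2 : exp 5 = exp 1 ^ 5 := by
    rw [← exp_nat_mul]; norm_num
  rw [h2]
  calc (148 : ℝ) ≤ (2.7182818283 : ℝ) ^ 5 := by norm_num
    _ ≤ exp 1 ^ 5 := by
        apply pow_le_pow_left₀ (by norm_num) h1.le

theorem pf_NUB : T_NUB := by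
  intro n hn t ht
  set u : ℝ := Real.log n with hu
  have hn0 : (0 : ℝ) < n := by
    by_contra h
    have h1 : (n : ℝ) = 0 := le_antisymm (not_lt.mp h) (Nat.cast_nonneg n)
    rw [hu, h1, Real.log_zero] at hn
    linarith
  have hx : (n : ℝ) = exp u := (Real.exp_log hn0).symm
  set w : ℝ := (u - 20) / 20 with hw
  have hw0 : 0 ≤ w := by rw [hw]; linarith
  have huw : u = 20 + 20 * w := by rw [hw]; ring
  have hsq : Real.sqrt n = exp 5 ^ 2 * exp (10 * w) := by
    rw [hx, Real.sqrt_eq_rpow, ← Real.exp_mul, ← exp_nat_mul, ← exp_add, huw]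
    congr 1
    push_cast
    ring
  have h34 : (n : ℝ) ^ ((3 : ℝ) / 4) = exp 5 ^ 3 * exp (15 * w) := by
    rw [hx, ← Real.exp_mul, ← exp_nat_mul, ← exp_add, huw]
    congr 1
    push_cast
    ring
  have hxx : (n : ℝ) = exp 5 ^ 4 * exp (20 * w) := by
    rw [hx, ← exp_nat_mul, ← exp_add, huw]
    congr 1
    push_cast
    ring
  have hu1 : u ≤ 20 * exp w := by
    have := add_one_le_exp w
    rw [huw]; linarith
  have hu0 : 0 ≤ u := by linarith
  have hu2 : u ^ 2 ≤ 400 * exp (2 * w) := by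
    have h1 : u ^ 2 ≤ (20 * exp w) ^ 2 := pow_le_pow_left₀ hu0 hu1 2
    have h2 : (20 * exp w) ^ 2 = 400 * exp (2 * w) := by
      rw [mul_pow, ← exp_nat_mul]; norm_num
    linarith
  set q : ℝ := exp 5 with hq
  have hq1 : (148 : ℝ) ≤ q := exp_five
  have hq0 : (0 : ℝ) < q := by linarith
  set y : ℝ := exp (20 * w) with hy
  have hy1 : 1 ≤ y := one_le_exp (by linarith)
  have e1 : exp (15 * w) * u ^ 2 ≤ 400 * y := by
    calc exp (15 * w) * u ^ 2 ≤ exp (15 * w) * (400 * exp (2 * w)) :=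
          mul_le_mul_of_nonneg_left hu2 (exp_pos _).le
      _ = 400 * exp (17 * w) := by
          rw [mul_left_comm, ← exp_add]; congr 2; ring
      _ ≤ 400 * y := by
          rw [hy]
          have : exp (17 * w) ≤ exp (20 * w) := exp_le_exp.mpr (by linarith)
          linarith
  have e2 : exp (10 * w) * u ^ 2 ≤ 400 * y := by
    calc exp (10 * w) * u ^ 2 ≤ exp (10 * w) * (400 * exp (2 * w)) :=
          mul_le_mul_of_nonneg_left hu2 (exp_pos _).le
      _ = 400 * exp (12 * w) := by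
          rw [mul_left_comm, ← exp_add]; congr 2; ring
      _ ≤ 400 * y := by
          rw [hy]
          have : exp (12 * w) ≤ exp (20 * w) := exp_le_exp.mpr (by linarith)
          linarith
  have e3 : exp (10 * w) * u ≤ 20 * y := by
    calc exp (10 * w) * u ≤ exp (10 * w) * (20 * exp w) :=
          mul_le_mul_of_nonneg_left hu1 (exp_pos _).le
      _ = 20 * exp (11 * w) := by
          rw [mul_left_comm, ← exp_add]; congr 2; ring
      _ ≤ 20 * y := by
          rw [hy]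
          have : exp (11 * w) ≤ exp (20 * w) := exp_le_exp.mpr (by linarith)
          linarith
  have e4 : u ≤ 20 * y := by
    have : exp w ≤ y := exp_le_exp.mpr (by linarith)
    linarith
  have f1 : 7 * (n : ℝ) ^ ((3 : ℝ) / 4) * u ^ 2 ≤ 2800 * q ^ 3 * y := by
    rw [h34]
    have := mul_le_mul_of_nonneg_left e1 (show (0 : ℝ) ≤ 7 * q ^ 3 by positivity)
    nlinarith [this]
  have f2 : 30 * Real.sqrt n * u ^ 2 ≤ 12000 * q ^ 2 * y := by
    rw [hsq]
    have := mul_le_mul_of_nonneg_left e2 (show (0 : ℝ) ≤ 30 * q ^ 2 by positivity)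
    nlinarith [this]
  have f3 : 62 * Real.sqrt n * u ≤ 1240 * q ^ 2 * y := by
    rw [hsq]
    have := mul_le_mul_of_nonneg_left e3 (show (0 : ℝ) ≤ 62 * q ^ 2 by positivity)
    nlinarith [this]
  have f4 : t * u ≤ 62 * Real.sqrt n * u + 62 * u := by
    have := mul_le_mul_of_nonneg_right ht hu0
    linarith
  have g1 : 2800 * q ^ 3 + 13240 * q ^ 2 + 1360 ≤ 20 * q ^ 4 := by
    have a1 : 148 * q ^ 3 ≤ q * q ^ 3 := mul_le_mul_of_nonneg_right hq1 (by positivity)
    have a2 : 148 * q ^ 2 ≤ q * q ^ 2 := mul_le_mul_of_nonneg_right hq1 (by positivity)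
    have a3 : (1 : ℝ) ≤ q ^ 2 := by nlinarith
    nlinarith
  have g2 : (2800 * q ^ 3 + 13240 * q ^ 2 + 1360) * y ≤ 20 * q ^ 4 * y :=
    mul_le_mul_of_nonneg_right g1 (by linarith)
  unfold LF
  rw [← hu]
  have hfin : t * u + (7 * (n : ℝ) ^ ((3 : ℝ) / 4) * u ^ 2 + 30 * Real.sqrt n * u ^ 2 + 5 * u)
      ≤ 2800 * q ^ 3 * y + 12000 * q ^ 2 * y + 1240 * q ^ 2 * y + 1340 * y := by
    linarith
  have hx2 : 20 * ((n : ℝ) - 1) = 20 * q ^ 4 * y - 20 := by rw [hxx]; ring
  rw [hx2]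
  nlinarith

end Pool.Agent.H59.FN
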